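import Pool.Agent.SFB.All

set_option autoImplicit false

open Finset Pool.Agent.StarF

namespace Pool.Agent.Results.MP_705b7e_co.Balanced

/-- Both complete bipartite colourings (two blocks with `x` and `y` vertices; one colour inside
the blocks, the other one between them) contain the star forest: some set `A` of stars can be
placed in the first block and the others in the second block in the colour inside the blocks, or
the stars of `A` have their leaves in the first block and their centres in the second one, and the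
other stars conversely. -/
def Fits {k : ℕ} (n : Fin k → ℕ) (x y : ℕ) : Prop :=
  ∃ A : Finset (Fin k),
    (∑ i ∈ A, n i + A.card ≤ x ∧ ∑ i ∈ Aᶜ, n i + (Aᶜ).card ≤ y) ∨
    (∑ i ∈ A, n i + (Aᶜ).card ≤ x ∧ ∑ i ∈ Aᶜ, n i + A.card ≤ y)

/-- The least `N` such that `Fits n x y` for all `x + y = N`. -/
noncomputable def blocks {k : ℕ} (n : Fin k → ℕ) : ℕ :=
  sInf {N : ℕ | ∀ x y : ℕ, x + y = N → Fits n x y}

/-- **Exact diagonal Ramsey numbers of balanced star forests.** -/
theorem result (k : ℕ) (hk : 2 ≤ k) (δ : ℝ) (hδ : 0 < δ) :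
    ∃ n₀ : ℕ, ∀ n : Fin k → ℕ, Antitone n → n₀ ≤ n ⟨k - 1, by omega⟩ →
      (n ⟨0, by omega⟩ : ℝ) ≤ (2 - δ) * n ⟨k - 1, by omega⟩ →
      ramsey (starForest n) (starForest n) = blocks n ∧
      ∑ i, n i + n ⟨k - 1, by omega⟩ ≤ ramsey (starForest n) (starForest n) ∧
      ramsey (starForest n) (starForest n) ≤ ∑ i, n i + n ⟨k - 1, by omega⟩ + k - 2 ∧
      (n ⟨0, by omega⟩ = n ⟨k - 1, by omega⟩ →
        ramsey (starForest n) (starForest n) = (k + 1) * n ⟨k - 1, by omega⟩ + k - 2) :=
  Pool.Agent.SFB.all_final k hk δ hδ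

end Pool.Agent.Results.MP_705b7e_co.Balanced
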